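import Mathlib
import Pool.Agent.Q223.Dic

/-!
# MP_427d8c_co: spectral minima of orbit polytopes need not be equilateral
-/

set_option autoImplicit false

namespace Pool.Agent.Results.MP_427d8c_co.NotEquilateral

open Module

/-- Euclidean space `ℝᵏ`. -/
abbrev E (k : ℕ) : Type := EuclideanSpace ℝ (Fin k)

/-- The orthogonal group `O(k)`. -/
abbrev O (k : ℕ) : Type := E k ≃ₗᵢ[ℝ] E k

/-- The orbit polytope `Q_w = conv (Γ w)`. -/
def orbitPolytope {k : ℕ} (Γ : Subgroup (O k)) (w : E k) : Set (E k) :=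
  convexHull ℝ {x | ∃ g ∈ Γ, g w = x}

/-- `[a, b]` is an edge of the polytope `Q`. -/
def IsEdge {k : ℕ} (Q : Set (E k)) (a b : E k) : Prop :=
  a ∈ Q.extremePoints ℝ ∧ b ∈ Q.extremePoints ℝ ∧ a ≠ b ∧ IsExposed ℝ Q (segment ℝ a b)

/-- The face of the polar dual `Q*` in which the facets dual to `a` and `b` meet. -/
def polarFace {k : ℕ} (Q : Set (E k)) (a b : E k) : Set (E k) :=
  {x | (∀ y ∈ Q, inner ℝ x y ≤ 1) ∧ inner ℝ x a = 1 ∧ inner ℝ x b = 1}

open Classical in
/-- The number `-M_{st}` for the vertices `a = w_s`, `b = w_t`, up to the normalization of the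
`(k-2)`-dimensional (Hausdorff) volume, which cancels in the random walk matrix. -/
noncomputable def weight {k : ℕ} (Q : Set (E k)) (a b : E k) : ℝ :=
  if IsEdge Q a b then
    (MeasureTheory.Measure.hausdorffMeasure ((k : ℝ) - 2) (polarFace Q a b)).toReal /
      (‖a‖ * ‖b‖ * Real.sin (InnerProductGeometry.angle a b))
  else 0

/-- The random walk matrix `T(Q)`. -/
noncomputable def walk {k : ℕ} (Q : Set (E k)) (a b : Q.extremePoints ℝ) : ℝ :=
  weight Q a b / ∑ᶠ c : Q.extremePoints ℝ, weight Q a c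

/-- The second largest eigenvalue (with multiplicity) `λ₁` of the symmetric doubly stochastic
matrix `T(Q)`: the maximum of the Rayleigh quotient over the vectors orthogonal to `(1,…,1)`. -/
noncomputable def lambda1 {k : ℕ} (Q : Set (E k)) : ℝ :=
  sSup {t | ∃ v : Q.extremePoints ℝ → ℝ, v ≠ 0 ∧ ∑ᶠ a, v a = 0 ∧
    t = (∑ᶠ a, ∑ᶠ b, v a * walk Q a b * v b) / ∑ᶠ a, v a ^ 2}

/-- Same combinatorial type: isomorphic face lattices. -/
def SameType {k : ℕ} (P Q : Set (E k)) : Prop :=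
  Nonempty ({F : Set (E k) // IsExposed ℝ P F} ≃o {F : Set (E k) // IsExposed ℝ Q F})

/-- The points `w` of the sphere of radius `r` for which `Q_w` is `k`-dimensional. -/
def fullDim {k : ℕ} (Γ : Subgroup (O k)) (r : ℝ) : Set (E k) :=
  {w ∈ Metric.sphere 0 r | (interior (orbitPolytope Γ w)).Nonempty}

/-- `S` is a stratum: a connected component of a class of points of `fullDim Γ r` with orbit
polytopes of the same combinatorial type. -/
def IsStratum {k : ℕ} (Γ : Subgroup (O k)) (r : ℝ) (S : Set (E k)) : Prop :=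
  ∃ w ∈ fullDim Γ r, S = connectedComponentIn
    {w' ∈ fullDim Γ r | SameType (orbitPolytope Γ w) (orbitPolytope Γ w')} w

/-- `Q` is equilateral: all its edges have the same length. -/
def Equilateral {k : ℕ} (Q : Set (E k)) : Prop :=
  ∀ a b c d, IsEdge Q a b → IsEdge Q c d → dist a b = dist c d

section invariance

variable {k : ℕ}

theorem exposed_image (A : O k) {P F : Set (E k)} (h : IsExposed ℝ P F) :
    IsExposed ℝ (A '' P) (A '' F) := by
  rintro ⟨_, ⟨x, hx, rfl⟩⟩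
  obtain ⟨l, hl⟩ := h ⟨x, hx⟩
  refine ⟨l.comp (A.symm.toContinuousLinearEquiv : E k →L[ℝ] E k), ?_⟩
  have hA : ∀ y, A.symm (A y) = y := A.symm_apply_apply
  conv_lhs => rw [hl]
  ext y
  constructor
  · rintro ⟨z, ⟨hz, hz'⟩, rfl⟩
    refine ⟨⟨z, hz, rfl⟩, ?_⟩
    rintro _ ⟨w, hw, rfl⟩
    show l (A.symm (A w)) ≤ l (A.symm (A z))
    rw [hA, hA]
    exact hz' w hw
  · rintro ⟨⟨z, hz, rfl⟩, hz'⟩
    refine ⟨z, ⟨hz, fun w hw => ?_⟩, rfl⟩
    have := hz' (A w) ⟨w, hw, rfl⟩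
    change l (A.symm (A w)) ≤ l (A.symm (A z)) at this
    rwa [hA, hA] at this

theorem symm_image (A : O k) (P : Set (E k)) : A.symm '' (A '' P) = P := by
  rw [Set.image_image]
  simp

theorem exposed_image_iff (A : O k) {P F : Set (E k)} :
    IsExposed ℝ (A '' P) (A '' F) ↔ IsExposed ℝ P F := by
  refine ⟨fun h => ?_, exposed_image A⟩
  have := exposed_image A.symm h
  rwa [symm_image, symm_image] at this

theorem sameType_image (A : O k) (P : Set (E k)) : SameType P (A '' P) := by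
  refine ⟨⟨⟨fun F => ⟨A '' F.1, exposed_image A F.2⟩,
    fun F => ⟨A.symm '' F.1, ?_⟩, ?_, ?_⟩, ?_⟩⟩
  · have := exposed_image A.symm F.2
    rwa [symm_image] at this
  · intro F
    exact Subtype.ext (symm_image A F.1)
  · intro F
    exact Subtype.ext (symm_image A.symm F.1)
  · intro F G
    show A '' F.1 ⊆ A '' G.1 ↔ F.1 ⊆ G.1
    exact Set.image_subset_image_iff A.injective

theorem ext_image (A : O k) (P : Set (E k)) :
    (A '' P).extremePoints ℝ = A '' P.extremePoints ℝ := (image_extremePoints A P).symm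

theorem isEdge_image (A : O k) (P : Set (E k)) (a b : E k) :
    IsEdge (A '' P) (A a) (A b) ↔ IsEdge P a b := by
  have hseg : segment ℝ (A a) (A b) = A '' segment ℝ a b :=
    (image_segment ℝ (A.toLinearEquiv : E k →ₗ[ℝ] E k).toAffineMap a b).symm
  unfold IsEdge
  rw [ext_image, A.injective.mem_set_image, A.injective.mem_set_image, A.injective.ne_iff, hseg,
    exposed_image_iff]

theorem inner_symm (A : O k) (x y : E k) : inner ℝ x (A y) = inner ℝ (A.symm x) y := by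
  rw [← A.inner_map_map (A.symm x) y, A.apply_symm_apply]

theorem polarFace_image (A : O k) (P : Set (E k)) (a b : E k) :
    polarFace (A '' P) (A a) (A b) = A '' polarFace P a b := by
  ext x
  constructor
  · rintro ⟨h1, h2, h3⟩
    refine ⟨A.symm x, ⟨fun y hy => ?_, ?_, ?_⟩, A.apply_symm_apply x⟩
    · rw [← inner_symm]; exact h1 _ ⟨y, hy, rfl⟩
    · rw [← inner_symm]; exact h2
    · rw [← inner_symm]; exact h3
  · rintro ⟨x, ⟨h1, h2, h3⟩, rfl⟩
    refine ⟨?_, ?_, ?_⟩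
    · rintro _ ⟨y, hy, rfl⟩
      rw [A.inner_map_map]; exact h1 y hy
    · rw [A.inner_map_map]; exact h2
    · rw [A.inner_map_map]; exact h3

theorem weight_image (A : O k) (P : Set (E k)) (a b : E k) :
    weight (A '' P) (A a) (A b) = weight P a b := by
  have h1 : (MeasureTheory.Measure.hausdorffMeasure ((k : ℝ) - 2)) (A '' polarFace P a b) =
      (MeasureTheory.Measure.hausdorffMeasure ((k : ℝ) - 2)) (polarFace P a b) :=
    A.toIsometryEquiv.hausdorffMeasure_image _ _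
  have h2 : InnerProductGeometry.angle (A a) (A b) = InnerProductGeometry.angle a b := by
    unfold InnerProductGeometry.angle
    rw [A.inner_map_map, A.norm_map, A.norm_map]
  unfold weight
  by_cases h : IsEdge P a b
  · rw [if_pos h, if_pos ((isEdge_image A P a b).2 h), polarFace_image, h1, h2, A.norm_map,
      A.norm_map]
  · rw [if_neg h, if_neg (fun h' => h ((isEdge_image A P a b).1 h'))]

/-- the bijection between the vertices -/
noncomputable def vtx (A : O k) (P : Set (E k)) :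
    P.extremePoints ℝ ≃ (A '' P).extremePoints ℝ :=
  (Equiv.Set.image A (P.extremePoints ℝ) A.injective).trans (Equiv.setCongr (ext_image A P).symm)

theorem vtx_apply (A : O k) (P : Set (E k)) (a : P.extremePoints ℝ) :
    ((vtx A P a : _) : E k) = A a := rfl

theorem walk_image (A : O k) (P : Set (E k)) (a b : P.extremePoints ℝ) :
    walk (A '' P) (vtx A P a) (vtx A P b) = walk P a b := by
  unfold walk
  rw [vtx_apply, vtx_apply, weight_image,
    ← finsum_comp_equiv (vtx A P) (f := fun c => weight (A '' P) (A a) (c : E k))]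
  simp only [vtx_apply, weight_image]

theorem lambda1_image (A : O k) (P : Set (E k)) : lambda1 (A '' P) = lambda1 P := by
  unfold lambda1
  congr 1
  ext t
  constructor
  · rintro ⟨v, hv, hv1, rfl⟩
    refine ⟨v ∘ vtx A P, ?_, ?_, ?_⟩
    · intro h
      apply hv
      ext c
      obtain ⟨a, rfl⟩ := (vtx A P).surjective c
      exact congrFun h a
    · rw [← hv1]; exact finsum_comp_equiv (vtx A P) (f := v)
    · rw [← finsum_comp_equiv (vtx A P) (f := fun c => v c ^ 2),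
        ← finsum_comp_equiv (vtx A P) (f := fun a => ∑ᶠ b, v a * walk (A '' P) a b * v b)]
      congr 1
      apply finsum_congr
      intro a
      rw [← finsum_comp_equiv (vtx A P) (f := fun b => v (vtx A P a) *
        walk (A '' P) (vtx A P a) b * v b)]
      simp only [walk_image, Function.comp]
  · rintro ⟨v, hv, hv1, rfl⟩
    have hs : ∀ a, (v ∘ (vtx A P).symm) (vtx A P a) = v a := fun a => by simp
    refine ⟨v ∘ (vtx A P).symm, ?_, ?_, ?_⟩
    · intro h
      apply hv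
      ext c
      rw [← hs, h]
      rfl
    · rw [← hv1]; exact finsum_comp_equiv (vtx A P).symm (f := v)
    · rw [← finsum_comp_equiv (vtx A P) (f := fun c => (v ∘ (vtx A P).symm) c ^ 2),
        ← finsum_comp_equiv (vtx A P) (f := fun a => ∑ᶠ b, (v ∘ (vtx A P).symm) a *
          walk (A '' P) a b * (v ∘ (vtx A P).symm) b)]
      simp only [hs]
      congr 1
      apply finsum_congr
      intro a
      rw [← finsum_comp_equiv (vtx A P) (f := fun b => v a *
        walk (A '' P) (vtx A P a) b * (v ∘ (vtx A P).symm) b)]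
      simp only [walk_image, hs]

end invariance

section group

open Quaternion Pool.Agent.Q223.Dic

/-- identification of the quaternions with `ℝ⁴` -/
noncomputable def φ : ℍ[ℝ] ≃ₗᵢ[ℝ] E 4 := Quaternion.linearIsometryEquivTuple

/-- left multiplication by a unit quaternion -/
noncomputable def lm (q : ℍ[ℝ]) (hq : ‖q‖ = 1) : ℍ[ℝ] ≃ₗᵢ[ℝ] ℍ[ℝ] :=
  LinearIsometry.toLinearIsometryEquiv
    ⟨LinearMap.mulLeft ℝ q, fun x => by rw [LinearMap.mulLeft_apply, norm_mul, hq, one_mul]⟩ rfl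

theorem lm_apply (q : ℍ[ℝ]) (hq : ‖q‖ = 1) (x : ℍ[ℝ]) : lm q hq x = q * x := rfl

/-- right multiplication by a unit quaternion -/
noncomputable def rm (q : ℍ[ℝ]) (hq : ‖q‖ = 1) : ℍ[ℝ] ≃ₗᵢ[ℝ] ℍ[ℝ] :=
  LinearIsometry.toLinearIsometryEquiv
    ⟨LinearMap.mulRight ℝ q, fun x => by rw [LinearMap.mulRight_apply, norm_mul, hq, mul_one]⟩ rfl

theorem rm_apply (q : ℍ[ℝ]) (hq : ‖q‖ = 1) (x : ℍ[ℝ]) : rm q hq x = x * q := rfl

/-- the group -/
def Γ : Subgroup (O 4) where
  carrier := {g | ∃ q ∈ S, ∀ x, φ.symm (g x) = q * φ.symm x}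
  one_mem' := ⟨1, S_one, fun x => by rw [one_mul]; rfl⟩
  mul_mem' := by
    rintro g h ⟨q, hq, hg⟩ ⟨p, hp, hh⟩
    exact ⟨q * p, S_mul hq hp, fun x => by
      rw [LinearIsometryEquiv.coe_mul, Function.comp_apply, hg, hh, mul_assoc]⟩
  inv_mem' := by
    rintro g ⟨q, hq, hg⟩
    refine ⟨q⁻¹, S_inv hq, fun x => ?_⟩
    have h1 : g (g⁻¹ x) = x := g.apply_symm_apply x
    have h2 := hg (g⁻¹ x)
    rw [h1] at h2
    rw [h2, ← mul_assoc, inv_mul_cancel₀ (ne_zero_S hq), one_mul]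

/-- the elements of the group -/
noncomputable def el (q : S) : Γ :=
  ⟨(φ.symm.trans (lm q (norm_S q.2))).trans φ, q, q.2, fun x => by
    simp [lm_apply]⟩

theorem el_apply (q : S) (x : E 4) : (el q : O 4) x = φ (q * φ.symm x) := rfl

theorem finite_Γ : Finite Γ := by
  have : Finite S := S_finite
  apply Finite.of_surjective el
  rintro ⟨g, q, hq, hg⟩
  refine ⟨⟨q, hq⟩, Subtype.ext ?_⟩
  ext1 x
  rw [el_apply, ← hg, φ.apply_symm_apply]

theorem orbit_eq (w : E 4) : {x | ∃ g ∈ Γ, g w = x} = Set.range (fun q : S => φ (q * φ.symm w)) := by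
  ext x
  constructor
  · rintro ⟨g, ⟨q, hq, hg⟩, rfl⟩
    refine ⟨⟨q, hq⟩, ?_⟩
    show φ (q * φ.symm w) = g w
    rw [← hg, φ.apply_symm_apply]
  · rintro ⟨q, rfl⟩
    exact ⟨el q, (el q).2, rfl⟩

/-- the quaternion `i` is in the real span of the group elements -/
theorem decomp (x : ℍ[ℝ]) : ∃ a b c d : ℝ,
    x = a • (1 : ℍ[ℝ]) + b • u + c • j + d • (u * j) := by
  have h3 : √3 ≠ 0 := by positivity
  refine ⟨x.re - x.imI / √3, 2 * x.imI / √3, x.imJ - x.imK / √3, 2 * x.imK / √3, ?_⟩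
  ext <;> simp <;> field_simp <;> ring

theorem irreducible (W : Submodule ℝ (E 4)) (hW : ∀ g ∈ Γ, ∀ x ∈ W, g x ∈ W) : W = ⊥ ∨ W = ⊤ := by
  by_cases h : W = ⊥
  · exact Or.inl h
  right
  obtain ⟨w, hw, hw0⟩ := Submodule.exists_mem_ne_zero_of_ne_bot h
  have hw0' : φ.symm w ≠ 0 := fun h => hw0 (by
    have := congrArg φ h
    simpa using this)
  have hmem : ∀ q : S, φ (q * φ.symm w) ∈ W := fun q => hW (el q) (el q).2 w hw
  rw [eq_top_iff]
  intro x _
  obtain ⟨a, b, c, d, hq⟩ := decomp (φ.symm x * (φ.symm w)⁻¹)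
  have h1 : φ.symm x = (a • (1 : ℍ[ℝ]) + b • u + c • j + d • (u * j)) * φ.symm w := by
    rw [← hq, mul_assoc, inv_mul_cancel₀ hw0', mul_one]
  have h2 : x = a • φ (1 * φ.symm w) + b • φ (u * φ.symm w) + c • φ (j * φ.symm w) +
      d • φ (u * j * φ.symm w) := by
    rw [← φ.apply_symm_apply x, h1]
    simp only [add_mul, smul_mul_assoc, map_add, map_smul]
  rw [h2]
  exact W.add_mem (W.add_mem (W.add_mem (W.smul_mem _ (hmem ⟨1, S_one⟩))
    (W.smul_mem _ (hmem ⟨u, S_u⟩))) (W.smul_mem _ (hmem ⟨j, S_j⟩)))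
    (W.smul_mem _ (hmem ⟨u * j, S_mul S_u S_j⟩))

theorem fullDim_eq {r : ℝ} (hr : 0 < r) : fullDim Γ r = Metric.sphere 0 r := by
  apply Set.Subset.antisymm (fun w hw => hw.1)
  intro w hw
  refine ⟨hw, ?_⟩
  have hw0 : w ≠ 0 := by
    rintro rfl
    simp at hw
    exact hr.ne hw
  unfold orbitPolytope
  rw [interior_convexHull_nonempty_iff_affineSpan_eq_top]
  have hne : ({x | ∃ g ∈ Γ, g w = x} : Set (E 4)).Nonempty := ⟨w, 1, Γ.one_mem, rfl⟩
  rw [AffineSubspace.affineSpan_eq_top_iff_vectorSpan_eq_top_of_nonempty ℝ _ _ hne]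
  have hinv : ∀ g ∈ Γ, ∀ x ∈ vectorSpan ℝ {x | ∃ g ∈ Γ, g w = x},
      g x ∈ vectorSpan ℝ {x | ∃ g ∈ Γ, g w = x} := by
    intro g hg
    have h1 : vectorSpan ℝ {x | ∃ g ∈ Γ, g w = x} ≤
        (vectorSpan ℝ {x | ∃ g ∈ Γ, g w = x}).comap (g.toLinearEquiv : E 4 →ₗ[ℝ] E 4) := by
      conv_lhs => rw [vectorSpan_def]
      rw [Submodule.span_le]
      rintro _ ⟨_, ⟨g1, hg1, rfl⟩, _, ⟨g2, hg2, rfl⟩, rfl⟩
      show g (g1 w - g2 w) ∈ vectorSpan ℝ {x | ∃ g ∈ Γ, g w = x}
      rw [map_sub]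
      exact vsub_mem_vectorSpan ℝ ⟨g * g1, Γ.mul_mem hg hg1, rfl⟩ ⟨g * g2, Γ.mul_mem hg hg2, rfl⟩
    exact h1
  rcases irreducible _ hinv with h | h
  · exfalso
    have h2 : φ ((1 : ℍ[ℝ]) * φ.symm w) - φ (u * φ.symm w) ∈
        vectorSpan ℝ {x | ∃ g ∈ Γ, g w = x} :=
      vsub_mem_vectorSpan ℝ ⟨el ⟨1, S_one⟩, (el _).2, rfl⟩ ⟨el ⟨u, S_u⟩, (el _).2, rfl⟩
    rw [h, Submodule.mem_bot, ← map_sub, ← sub_mul] at h2
    have h3 := (map_eq_zero_iff φ φ.injective).1 h2
    rcases mul_eq_zero.1 h3 with h4 | h4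
    · have := congrArg QuaternionAlgebra.re h4
      simp at this
      norm_num at this
    · exact hw0 ((map_eq_zero_iff φ.symm φ.symm.injective).1 h4)
  · exact h

/-- all orbit polytopes on a sphere are congruent -/
theorem congruent {r : ℝ} (hr : 0 < r) {w w' : E 4} (hw : w ∈ Metric.sphere (0 : E 4) r)
    (hw' : w' ∈ Metric.sphere (0 : E 4) r) :
    ∃ A : O 4, A '' orbitPolytope Γ w = orbitPolytope Γ w' := by
  rw [mem_sphere_zero_iff_norm] at hw hw'
  have h0 : φ.symm w ≠ 0 := by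
    intro h
    have := φ.symm.norm_map w
    rw [h, norm_zero, hw] at this
    exact hr.ne this
  have hp : ‖(φ.symm w)⁻¹ * φ.symm w'‖ = 1 := by
    rw [norm_mul, norm_inv, φ.symm.norm_map, φ.symm.norm_map, hw, hw', inv_mul_cancel₀ hr.ne']
  refine ⟨(φ.symm.trans (rm _ hp)).trans φ, ?_⟩
  have hA : ∀ x, ((φ.symm.trans (rm _ hp)).trans φ) x =
      φ (φ.symm x * ((φ.symm w)⁻¹ * φ.symm w')) := fun x => rfl
  unfold orbitPolytope
  rw [orbit_eq, orbit_eq]
  have h1 := LinearMap.image_convexHull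
    (((φ.symm.trans (rm _ hp)).trans φ).toLinearEquiv : E 4 →ₗ[ℝ] E 4)
    (Set.range (fun q : S => φ (q * φ.symm w)))
  refine Eq.trans h1 ?_
  congr 1
  rw [← Set.range_comp]
  congr 1
  ext1 q
  show φ (φ.symm (φ (q * φ.symm w)) * ((φ.symm w)⁻¹ * φ.symm w')) = φ (q * φ.symm w')
  rw [φ.symm_apply_apply, mul_assoc, ← mul_assoc (φ.symm w), mul_inv_cancel₀ h0, one_mul]

/-- the orbit as a configuration -/
noncomputable def conf (w : E 4) (q : S) : E 4 := φ (q * φ.symm w)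

/-- the functional `⟪·, p w⟫` on the orbit -/
theorem inner_conf (w : E 4) (q : S) (p : ℍ[ℝ]) :
    inner ℝ (φ (p * φ.symm w)) (conf w q) = ‖w‖ ^ 2 * ((q : ℍ[ℝ]) * star p).re := by
  unfold conf
  rw [φ.inner_map_map, real_inner_comm, inner_mul, φ.symm.norm_map]

/-- functional `⟪·, p w⟫` -/
noncomputable def fn (w : E 4) (p : ℍ[ℝ]) : E 4 →ₗ[ℝ] ℝ := (innerSL ℝ (φ (p * φ.symm w))).toLinearMap

theorem fn_apply (w : E 4) (p : ℍ[ℝ]) (q : S) :
    fn w p (conf w q) = ‖w‖ ^ 2 * ((q : ℍ[ℝ]) * star p).re := by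
  rw [← inner_conf]; rfl

theorem conf_conf {w : E 4} (hw : w ≠ 0) : Pool.Agent.Q223.PG.Conf (conf w) := by
  have hpos : 0 < ‖w‖ ^ 2 := by positivity
  intro p
  refine ⟨fn w p, fun q hq => ?_⟩
  rw [fn_apply, fn_apply]
  have h1 : (p : ℍ[ℝ]) * star (p : ℍ[ℝ]) = 1 := by
    rw [Quaternion.self_mul_star, Quaternion.normSq_eq_norm_mul_self, norm_S p.2]; simp
  have h2 : star (p : ℍ[ℝ]) = (p : ℍ[ℝ])⁻¹ := eq_inv_of_mul_eq_one_right h1
  have h3 : (q : ℍ[ℝ]) * star (p : ℍ[ℝ]) ∈ S := by rw [h2]; exact S_mul q.2 (S_inv p.2)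
  have h4 : (q : ℍ[ℝ]) * star (p : ℍ[ℝ]) ≠ 1 := by
    rw [h2]
    intro h
    exact hq (Subtype.ext (eq_of_mul_inv_eq_one h))
  have h5 := re_lt h3 h4
  rw [h1]
  have h6 : (1 : ℍ[ℝ]).re = 1 := rfl
  rw [h6]
  exact mul_lt_mul_of_pos_left h5 hpos

theorem isEdge_conf {w : E 4} (hw : w ≠ 0) (p q : S) (hpq : p ≠ q)
    (h : ∃ l : E 4 →ₗ[ℝ] ℝ, l (conf w p) = l (conf w q) ∧
      ∀ m, m ≠ p → m ≠ q → l (conf w m) < l (conf w p)) :
    IsEdge (orbitPolytope Γ w) (conf w p) (conf w q) := by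
  have : Finite S := S_finite
  have hc := conf_conf hw
  have hP : orbitPolytope Γ w = convexHull ℝ (Set.range (conf w)) := by
    unfold orbitPolytope; rw [orbit_eq]; rfl
  rw [hP]
  refine ⟨?_, ?_, fun h => hpq (hc.injective h), (Pool.Agent.Q223.Poly.adj_iff hc p q).2 h⟩
  · rw [Pool.Agent.Q223.Poly.ext_conf hc]; exact ⟨p, rfl⟩
  · rw [Pool.Agent.Q223.Poly.ext_conf hc]; exact ⟨q, rfl⟩

theorem edge1 {w : E 4} (hw : w ≠ 0) :
    IsEdge (orbitPolytope Γ w) (conf w ⟨1, S_one⟩) (conf w ⟨u, S_u⟩) := by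
  have hpos : 0 < ‖w‖ ^ 2 := by positivity
  apply isEdge_conf hw
  · intro h
    have h1 := congrArg (fun q : S => (q : ℍ[ℝ]).re) h
    have h2 : (1 : ℝ) = 1 / 2 := h1
    norm_num at h2
  · refine ⟨fn w 1 + fn w u, ?_, fun m hm hm' => ?_⟩
    · simp only [LinearMap.add_apply, fn_apply, star_u]
      simp
      ring_nf
      nlinarith [s3]
    · have h1 := re_edge1 m.2 (fun h => hm (Subtype.ext h)) (fun h => hm' (Subtype.ext h))
      simp only [LinearMap.add_apply, fn_apply, star_one, mul_one]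
      rw [← mul_add, ← mul_add]
      apply mul_lt_mul_of_pos_left _ hpos
      have h2 : (1 : ℍ[ℝ]).re + ((1 : ℍ[ℝ]) * star u).re = 3 / 2 := by
        rw [star_u]; simp; norm_num
      rw [h2]
      exact h1

theorem edge2 {w : E 4} (hw : w ≠ 0) :
    IsEdge (orbitPolytope Γ w) (conf w ⟨1, S_one⟩) (conf w ⟨j, S_j⟩) := by
  have hpos : 0 < ‖w‖ ^ 2 := by positivity
  apply isEdge_conf hw
  · intro h
    have h1 := congrArg (fun q : S => (q : ℍ[ℝ]).re) h
    have h2 : (1 : ℝ) = 0 := h1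
    norm_num at h2
  · refine ⟨fn w 1 + fn w j, ?_, fun m hm hm' => ?_⟩
    · simp only [LinearMap.add_apply, fn_apply, star_j]
      simp
    · have h1 := re_edge2 m.2 (fun h => hm (Subtype.ext h)) (fun h => hm' (Subtype.ext h))
      simp only [LinearMap.add_apply, fn_apply, star_one, mul_one]
      rw [← mul_add, ← mul_add]
      apply mul_lt_mul_of_pos_left _ hpos
      have h2 : (1 : ℍ[ℝ]).re + ((1 : ℍ[ℝ]) * star j).re = 1 := by
        rw [star_j]; simp
      rw [h2]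
      exact h1

theorem dist_conf (w : E 4) (p q : S) :
    dist (conf w p) (conf w q) = ‖(p : ℍ[ℝ]) - q‖ * ‖w‖ := by
  unfold conf
  rw [dist_eq_norm, ← map_sub, φ.norm_map, ← sub_mul, norm_mul, φ.symm.norm_map]

theorem not_equilateral {w : E 4} (hw : w ≠ 0) : ¬ Equilateral (orbitPolytope Γ w) := by
  intro h
  have h1 := h _ _ _ _ (edge1 hw) (edge2 hw)
  rw [dist_conf, dist_conf] at h1
  have h2 : ‖(1 : ℍ[ℝ]) - u‖ = ‖(1 : ℍ[ℝ]) - j‖ :=
    mul_right_cancel₀ (norm_ne_zero_iff.2 hw) h1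
  have h3 : Quaternion.normSq ((1 : ℍ[ℝ]) - u) = Quaternion.normSq ((1 : ℍ[ℝ]) - j) := by
    rw [Quaternion.normSq_eq_norm_mul_self, Quaternion.normSq_eq_norm_mul_self, h2]
  rw [Quaternion.normSq_def', Quaternion.normSq_def'] at h3
  simp at h3
  nlinarith [s3]

end group

/-- **Minimisers of `λ₁` need not be equilateral.** There is a finite irreducible group
`Γ ⊂ O(4)` for which, for every radius `r > 0`, the sphere `S³(r)` is the only stratum, `λ₁` is
continuous on it, every point of it is a minimiser of `λ₁`, and no polytope `Q_w` is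
equilateral. -/
theorem result : ∃ Γ : Subgroup (O 4), Finite Γ ∧
    (∀ W : Submodule ℝ (E 4), (∀ g ∈ Γ, ∀ x ∈ W, g x ∈ W) → W = ⊥ ∨ W = ⊤) ∧
    ∀ r : ℝ, 0 < r →
      (∀ S : Set (E 4), IsStratum Γ r S ↔ S = Metric.sphere 0 r) ∧
      ContinuousOn (fun w => lambda1 (orbitPolytope Γ w)) (Metric.sphere 0 r) ∧
      ∀ w ∈ Metric.sphere (0 : E 4) r,
        IsMinOn (fun w => lambda1 (orbitPolytope Γ w)) (Metric.sphere 0 r) w ∧
          ¬ Equilateral (orbitPolytope Γ w) := by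
  refine ⟨Γ, finite_Γ, irreducible, fun r hr => ?_⟩
  have hconst : ∀ w ∈ Metric.sphere (0 : E 4) r, ∀ w' ∈ Metric.sphere (0 : E 4) r,
      lambda1 (orbitPolytope Γ w) = lambda1 (orbitPolytope Γ w') := by
    intro w hw w' hw'
    obtain ⟨A, hA⟩ := congruent hr hw hw'
    rw [← hA, lambda1_image]
  have hsph : ∀ w ∈ Metric.sphere (0 : E 4) r, {w' ∈ fullDim Γ r |
      SameType (orbitPolytope Γ w) (orbitPolytope Γ w')} = Metric.sphere 0 r := by
    intro w hw
    rw [fullDim_eq hr]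
    apply Set.Subset.antisymm (fun w' hw' => hw'.1)
    intro w' hw'
    obtain ⟨A, hA⟩ := congruent hr hw hw'
    exact ⟨hw', by rw [← hA]; exact sameType_image A _⟩
  have hconn : IsPreconnected (Metric.sphere (0 : E 4) r) := by
    apply isPreconnected_sphere
    rw [← finrank_eq_rank, finrank_euclideanSpace_fin]
    exact_mod_cast (by norm_num : (1 : ℕ) < 4)
  refine ⟨fun S => ⟨?_, ?_⟩, ?_, ?_⟩
  · rintro ⟨w, hw, rfl⟩
    rw [fullDim_eq hr] at hw
    rw [hsph w hw]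
    exact hconn.connectedComponentIn hw
  · rintro rfl
    obtain ⟨w, hw⟩ : (Metric.sphere (0 : E 4) r).Nonempty := NormedSpace.sphere_nonempty.2 hr.le
    refine ⟨w, by rw [fullDim_eq hr]; exact hw, ?_⟩
    rw [hsph w hw]
    exact (hconn.connectedComponentIn hw).symm
  · obtain ⟨w0, hw0⟩ : (Metric.sphere (0 : E 4) r).Nonempty := NormedSpace.sphere_nonempty.2 hr.le
    have : Set.EqOn (fun w => lambda1 (orbitPolytope Γ w))
        (fun _ => lambda1 (orbitPolytope Γ w0)) (Metric.sphere 0 r) :=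
      fun w hw => hconst w hw w0 hw0
    exact continuousOn_const.congr this
  · intro w hw
    refine ⟨fun w' hw' => (hconst w hw w' hw').le, not_equilateral ?_⟩
    rintro rfl
    simp at hw
    exact hr.ne hw

end Pool.Agent.Results.MP_427d8c_co.NotEquilateral
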